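import Pool.Agent.Lib.MP_49c83e_al.AsmSp
import Pool.Agent.Lib.MP_49c83e_al.Three.All

/-!
# MP_49c83e_al: the second cohomology of the fundamental modules of Sp_2n

`dim H²(Sp_2n, L(ω_j)) ≤ 1` for every prime `p`, every `n` and every `1 ≤ j ≤ n`.

Definitions (files Lib/MP_49c83e_al/Reg.lean and Sp.lean): `SpG k n` is the group `Sp_2n(k)`, `RM k X M` the
space of regular maps `X → M` (for `X = SpG k n`: polynomials in the matrix entries with values in `M`), `IsRat ρ`
says that all orbit maps are regular, `H2 ρ` is the second cohomology of the complex of regular cochains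
(Hochschild complex), and `HasHW ρ j` says that there is a nonzero vector of weight `ω_j = (1^j, 0^(n-j))` fixed by
the unipotent radical of the Borel subgroup.
-/

namespace Pool.Agent.Results.MP_49c83e_al.SecondCohomology

open Pool.Agent.Sp49

theorem result (k : Type) [Field k] [IsAlgClosed k] (p : ℕ) [Fact p.Prime] [CharP k p] (n j : ℕ)
    (h1 : 1 ≤ j) (hj : j ≤ n) (L : Type) [AddCommGroup L] [Module k L]
    (ρ : Representation k (SpG k n) L) (hrat : IsRat ρ) (hirr : ρ.IsIrreducible)
    (hw : HasHW ρ j) : Module.rank k (H2 ρ) ≤ 1 :=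
  main_of_III Three.III_proved k p n j h1 hj L ρ hrat hirr hw

end Pool.Agent.Results.MP_49c83e_al.SecondCohomology
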